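import Pool.Agent.H91.EL.Targets

set_option autoImplicit false

namespace Pool.Agent.H53.EL

open Pool.Agent.H83.G Pool.Agent.H91.EL

theorem wk_card {ι : Type} (ρ r : ℝ) (X : Finset (Z 2)) (P : Finset ι) (η : ι → E 2)
    (I : Z 2 → ι → Prop) :
    (WK ρ r X P η I).card ≤ ∑ a ∈ X, ∑ x ∈ X, (Wax ρ r X P η I a x).card := by
  classical
  rw [← Finset.sum_product']
  rw [Finset.card_eq_sum_card_fiberwise (s := WK ρ r X P η I) (t := X ×ˢ X)
    (f := fun t => (t.1, t.2.2.2.2))]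
  · apply Finset.sum_le_sum
    rintro ⟨a, x⟩ -
    apply Finset.card_le_card_of_injOn (fun t => (t.2.1, t.2.2.1, t.2.2.2.1))
    · rintro ⟨a', p, y, p', x'⟩ ht
      simp only [Finset.coe_filter, Set.mem_ofPred_eq, WK, Finset.mem_filter, Finset.mem_product,
        Prod.mk.injEq] at ht
      obtain ⟨⟨⟨h1, h2, h3, h4, h5⟩, h6⟩, rfl, rfl⟩ := ht
      simp only [Finset.mem_coe, Wax, Finset.mem_filter, Finset.mem_product]
      exact ⟨⟨h2, h3, h4⟩, h6⟩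
    · rintro ⟨a', p, y, p', x'⟩ ht ⟨a'', q, z, q', x''⟩ ht' h
      simp only [Finset.coe_filter, Set.mem_ofPred_eq, Prod.mk.injEq] at ht ht' h
      obtain ⟨-, rfl, rfl⟩ := ht
      obtain ⟨-, rfl, rfl⟩ := ht'
      obtain ⟨rfl, rfl, rfl⟩ := h
      rfl
  · rintro ⟨a', p, y, p', x'⟩ ht
    simp only [WK, Finset.coe_filter, Set.mem_ofPred_eq, Finset.mem_product] at ht
    simp only [Finset.coe_product, Set.mem_prod, Finset.mem_coe]
    exact ⟨ht.1.1, ht.1.2.2.2.2⟩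

theorem wax_card {ι : Type} {ρ r B : ℝ} {X : Finset (Z 2)} {P : Finset ι} {η : ι → E 2}
    {I : Z 2 → ι → Prop} {a x : Z 2}
    (h : ∀ (p : ι) (W : Finset (Z 2 × ι)), (∀ t ∈ W, GH ρ r X P η I a p t.1 t.2 x) →
      (W.card : ℝ) ≤ B) :
    ((Wax ρ r X P η I a x).card : ℝ) ≤ (PZ P I a).card * B := by
  classical
  rw [Finset.card_eq_sum_card_fiberwise (s := Wax ρ r X P η I a x) (t := PZ P I a)
    (f := fun t => t.1)]
  · push_cast
    rw [← nsmul_eq_mul]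
    apply Finset.sum_le_card_nsmul
    intro p hp
    have h1 := h p (((Wax ρ r X P η I a x).filter fun t => t.1 = p).image fun t => (t.2.1, t.2.2))
      (by
        rintro ⟨y, p'⟩ ht
        simp only [Finset.mem_image, Finset.mem_filter, Wax, Finset.mem_product, Prod.mk.injEq] at ht
        obtain ⟨⟨q, y', q'⟩, ⟨⟨-, hg⟩, hq⟩, rfl, rfl⟩ := ht
        simp only at hg hq ⊢
        subst hq
        exact hg.toGH)
    rw [Finset.card_image_of_injOn] at h1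
    · exact h1
    · rintro ⟨q, y, q'⟩ ht ⟨q1, y1, q1'⟩ ht' hh
      simp only [Finset.coe_filter, Set.mem_ofPred_eq, Prod.mk.injEq] at ht ht' hh
      obtain ⟨-, rfl⟩ := ht
      obtain ⟨-, rfl⟩ := ht'
      obtain ⟨rfl, rfl⟩ := hh
      rfl
  · rintro ⟨p, y, p'⟩ ht
    simp only [Wax, Finset.coe_filter, Set.mem_ofPred_eq, Finset.mem_product] at ht
    simp only [PZ, Finset.coe_filter, Set.mem_ofPred_eq]
    exact ⟨ht.1.1, ht.2.Iap⟩

theorem pf_GDP (hWLB : T_WLB) (hMUL : T_MUL) (hNUM : T_NUM) : T_GDP := by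
  classical
  obtain ⟨CW, hCW, hW⟩ := hWLB
  obtain ⟨CM, hCM, hM⟩ := hMUL
  obtain ⟨CN, hCN, hN⟩ := hNUM
  have hNM : 1 ≤ CN * CM := by nlinarith
  refine ⟨16 * (CN * CM) + CW, by linarith, ?_⟩
  intro ι ρ D K r X P η I hc hX hKr hC4 hCD
  set C := 16 * (CN * CM) + CW with hCdef
  have hCCW : CW ≤ C := by linarith
  have hCCM : CM ≤ C := by nlinarith
  have hC16 : 16 * CN ≤ C := by nlinarith
  have hC1 : 1 ≤ C := by linarith
  have hD := hc.one_le_D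
  have hDK := hc.D_le_K
  have hKρ := hc.K_le
  have hD0 : 0 < D := by linarith
  have hK0 : 0 < K := by linarith
  have hρ0 : 0 < ρ := by linarith
  have hρ1 : 1 ≤ ρ := by linarith
  have hr0 : 0 < r := lt_of_lt_of_le (inv_pos.2 hK0) hKr
  have hD4 : 1 ≤ D ^ 4 := one_le_pow₀ hD
  have hr1 : r ≤ 1 := by
    have : 1 * r ≤ C * D ^ 4 * r := mul_le_mul_of_nonneg_right (by nlinarith) hr0.le
    linarith
  have hW4 : CW * D ^ 4 * r ≤ 1 := by
    refine le_trans ?_ hC4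
    exact mul_le_mul_of_nonneg_right (mul_le_mul_of_nonneg_right hCCW (by positivity)) hr0.le
  have hMD : CM * D ≤ r ^ 4 * ρ := (mul_le_mul_of_nonneg_right hCCM hD0.le).trans hCD
  have h1 : 1 ≤ r ^ 4 * ρ := by nlinarith
  have hrr : 1 ≤ r * ρ ^ 2 := by
    refine h1.trans ?_
    have e1 : r ^ 4 ≤ r := by
      calc r ^ 4 ≤ r ^ 1 := pow_le_pow_of_le_one hr0.le hr1 (by norm_num)
        _ = r := pow_one r
    have e2 : ρ ≤ ρ ^ 2 := by nlinarith
    exact mul_le_mul e1 e2 hρ0.le hr0.le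
  have hw := hW ι ρ D K r X P η I hc hKr hW4 hrr
  obtain ⟨n1, n2, -⟩ := hN ι ρ D K X P η I hc
  -- choice of `a`
  have hwk : ((WK ρ r X P η I).card : ℝ) ≤
      ∑ a ∈ X, ∑ x ∈ X, ((Wax ρ r X P η I a x).card : ℝ) := by
    exact_mod_cast wk_card ρ r X P η I
  obtain ⟨a, ha, hsa⟩ := Finset.exists_le_of_sum_le hX
    (f := fun _ => ρ ^ 10) (g := fun a => 8 * D ^ 4 * ∑ x ∈ X, ((Wax ρ r X P η I a x).card : ℝ))
    (by
      rw [Finset.sum_const, nsmul_eq_mul, ← Finset.mul_sum]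
      refine hw.trans ?_
      exact mul_le_mul_of_nonneg_left hwk (by positivity))
  refine ⟨a, ha, ?_⟩
  set G := X.filter fun x => ρ ^ 3 ≤ C * D ^ 9 * ((Wax ρ r X P η I a x).card : ℝ) with hG
  have hr12 : 0 < r ^ 12 := by positivity
  -- every pair
  have hup : ∀ x, ((Wax ρ r X P η I a x).card : ℝ) ≤ CN * CM * D ^ 8 * ρ ^ 3 / r ^ 12 := by
    intro x
    have e1 := wax_card (B := CM * D ^ 7 * ρ ^ 2 / r ^ 12) (a := a) (x := x)
      (fun p W hWW => hM ι ρ D K r X P η I hc hr0 hr1 hMD a p x W hWW)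
    refine e1.trans ?_
    calc ((PZ P I a).card : ℝ) * (CM * D ^ 7 * ρ ^ 2 / r ^ 12)
        ≤ (CN * D * ρ) * (CM * D ^ 7 * ρ ^ 2 / r ^ 12) :=
          mul_le_mul_of_nonneg_right (n2 a ha) (by positivity)
      _ = CN * CM * D ^ 8 * ρ ^ 3 / r ^ 12 := by ring
  -- bad points
  have hbad : ∑ x ∈ X.filter (fun x => ¬ ρ ^ 3 ≤ C * D ^ 9 * ((Wax ρ r X P η I a x).card : ℝ)),
      ((Wax ρ r X P η I a x).card : ℝ) ≤ ρ ^ 10 / (16 * D ^ 4) := by
    have e1 : ∑ x ∈ X.filter (fun x => ¬ ρ ^ 3 ≤ C * D ^ 9 * ((Wax ρ r X P η I a x).card : ℝ)),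
        ((Wax ρ r X P η I a x).card : ℝ) ≤
        ((X.filter (fun x => ¬ ρ ^ 3 ≤ C * D ^ 9 * ((Wax ρ r X P η I a x).card : ℝ))).card : ℝ) *
          (ρ ^ 3 / (C * D ^ 9)) := by
      rw [← nsmul_eq_mul]
      apply Finset.sum_le_card_nsmul
      intro x hx
      have hx2 := (Finset.mem_filter.1 hx).2
      rw [le_div_iff₀ (by positivity)]
      push Not at hx2
      linarith
    refine e1.trans ?_
    have e2 : ((X.filter (fun x => ¬ ρ ^ 3 ≤ C * D ^ 9 *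
        ((Wax ρ r X P η I a x).card : ℝ))).card : ℝ) ≤ CN * D ^ 5 * ρ ^ 7 := by
      refine le_trans ?_ n1
      exact_mod_cast Finset.card_filter_le _ _
    refine (mul_le_mul_of_nonneg_right e2 (by positivity)).trans ?_
    rw [mul_div_assoc', div_le_div_iff₀ (by positivity) (by positivity)]
    have e3 : CN * D ^ 5 * ρ ^ 7 * ρ ^ 3 * (16 * D ^ 4) = 16 * CN * (D ^ 9 * ρ ^ 10) := by ring
    have e4 : ρ ^ 10 * (C * D ^ 9) = C * (D ^ 9 * ρ ^ 10) := by ring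
    rw [e3, e4]
    exact mul_le_mul_of_nonneg_right hC16 (by positivity)
  have hgood : ∑ x ∈ G, ((Wax ρ r X P η I a x).card : ℝ) ≤
      (G.card : ℝ) * (CN * CM * D ^ 8 * ρ ^ 3 / r ^ 12) := by
    rw [← nsmul_eq_mul]
    exact Finset.sum_le_card_nsmul _ _ _ fun x _ => hup x
  have hsplit := Finset.sum_filter_add_sum_filter_not X
    (fun x => ρ ^ 3 ≤ C * D ^ 9 * ((Wax ρ r X P η I a x).card : ℝ))
    (fun x => ((Wax ρ r X P η I a x).card : ℝ))
  have hfin : ρ ^ 10 ≤ 8 * D ^ 4 * ((G.card : ℝ) * (CN * CM * D ^ 8 * ρ ^ 3 / r ^ 12) +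
      ρ ^ 10 / (16 * D ^ 4)) := by
    refine hsa.trans ?_
    apply mul_le_mul_of_nonneg_left _ (by positivity)
    rw [← hsplit]
    exact add_le_add hgood hbad
  have e5 : 8 * D ^ 4 * ((G.card : ℝ) * (CN * CM * D ^ 8 * ρ ^ 3 / r ^ 12) +
      ρ ^ 10 / (16 * D ^ 4)) =
      ρ ^ 3 * (8 * (CN * CM) * D ^ 12 * (G.card : ℝ)) / r ^ 12 + ρ ^ 10 / 2 := by
    field_simp
    ring
  rw [e5] at hfin
  have e6 : ρ ^ 10 * r ^ 12 ≤ ρ ^ 3 * (16 * (CN * CM) * D ^ 12 * (G.card : ℝ)) := by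
    have e7 : ρ ^ 10 / 2 ≤ ρ ^ 3 * (8 * (CN * CM) * D ^ 12 * (G.card : ℝ)) / r ^ 12 := by linarith
    rw [le_div_iff₀ hr12] at e7
    nlinarith
  have e8 : ρ ^ 3 * (ρ ^ 7 * r ^ 12) ≤ ρ ^ 3 * (16 * (CN * CM) * D ^ 12 * (G.card : ℝ)) := by
    calc ρ ^ 3 * (ρ ^ 7 * r ^ 12) = ρ ^ 10 * r ^ 12 := by ring
      _ ≤ _ := e6
  have e9 := le_of_mul_le_mul_left e8 (by positivity)
  refine e9.trans ?_
  have : 16 * (CN * CM) ≤ C := by linarith
  exact mul_le_mul_of_nonneg_right (mul_le_mul_of_nonneg_right this (by positivity)) (by positivity)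

end Pool.Agent.H53.EL
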